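import Pool.Agent.H.MP_6189ff_al.Defs

set_option autoImplicit false

namespace Pool.Agent.H.MP_6189ff_al

variable {M : Type} [Monoid M]

theorem CP.eta (c : CP M) (x : M) : c.S (c.p1 * x, c.p2 * x) = x := by
  obtain ⟨⟨a, b⟩, rfl⟩ := c.bij.2 x
  rw [c.h1, c.h2]

theorem CP.S_mul (c : CP M) (a b m : M) : c.S (a, b) * m = c.S (a * m, b * m) := by
  have := c.eta (c.S (a, b) * m)
  rw [← mul_assoc, ← mul_assoc, c.h1, c.h2] at this
  exact this.symm

theorem Str.proj {c : CP M} {d : ℕ} {Φ : (Fin d → M) → M} {τ : Fin d → M} (h : Str c d Φ τ) :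
    ∀ (m : Fin d → M) (i : Fin d), τ i * Φ m = m i := by
  induction h with
  | one => intro m i; rw [one_mul, Subsingleton.elim i 0]
  | comb _ _ ih1 ih2 =>
    intro m i
    refine Fin.addCases (fun i => ?_) (fun j => ?_) i
    · rw [Fin.append_left, mul_assoc, c.h1, ih1]
    · rw [Fin.append_right, mul_assoc, c.h2, ih2]

theorem Str.eta {c : CP M} {d : ℕ} {Φ : (Fin d → M) → M} {τ : Fin d → M} (h : Str c d Φ τ) :
    ∀ x : M, Φ (fun i => τ i * x) = x := by
  induction h with
  | one => intro x; simp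
  | comb _ _ ih1 ih2 =>
    intro x
    simp only [Fin.append_left, Fin.append_right, mul_assoc]
    rw [ih1, ih2, c.eta]

/-- the multiset of values of a tuple -/
def ms {d : ℕ} (τ : Fin d → M) : Multiset M := (List.ofFn τ : Multiset M)

omit [Monoid M] in
theorem ms_append {d e : ℕ} (τ : Fin d → M) (ρ : Fin e → M) :
    ms (Fin.append τ ρ) = ms τ + ms ρ := by
  simp [ms, List.ofFn_fin_append]

omit [Monoid M] in
theorem ms_map {d : ℕ} (τ : Fin d → M) (f : M → M) : ms (fun i => f (τ i)) = (ms τ).map f := by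
  simp [ms, List.map_ofFn, Function.comp_def]

omit [Monoid M] in
theorem mem_ms {d : ℕ} (τ : Fin d → M) (a : M) : a ∈ ms τ ↔ ∃ i, τ i = a := by
  simp [ms, List.mem_ofFn]

omit [Monoid M] in
theorem ms_eq {d : ℕ} (τ : Fin d → M) : ms τ = (Finset.univ : Finset (Fin d)).val.map τ := by
  simp [ms, Fin.univ_val_map]

omit [Monoid M] in
theorem ms_perm {d : ℕ} (τ : Fin d → M) (σ : Equiv.Perm (Fin d)) :
    ms (fun i => τ (σ i)) = ms τ := by
  rw [ms_eq, ms_eq]
  have := Multiset.map_univ_val_equiv σ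
  conv_rhs => rw [← this, Multiset.map_map]
  rfl

omit [Monoid M] in
theorem exists_perm {d : ℕ} (τ ρ : Fin d → M) (h : ms τ = ms ρ) :
    ∃ σ : Equiv.Perm (Fin d), ∀ i, τ i = ρ (σ i) := by
  classical
  have hc : ∀ a, Fintype.card {i // τ i = a} = Fintype.card {i // ρ i = a} := by
    intro a
    have := congrArg (Multiset.count a) h
    rw [ms_eq, ms_eq, Multiset.count_map, Multiset.count_map] at this
    rw [Fintype.card_subtype, Fintype.card_subtype]
    simpa [Finset.card, Finset.filter, eq_comm] using this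
  refine ⟨Equiv.ofFiberEquiv fun a => Fintype.equivOfCardEq (hc a), fun i => ?_⟩
  exact (Equiv.ofFiberEquiv_map (fun a => Fintype.equivOfCardEq (hc a)) i).symm

/-- multisets of leaves of finite binary trees -/
inductive Code (c : CP M) : Multiset M → Prop
  | one : Code c {1}
  | step (a : M) (s : Multiset M) : Code c (a ::ₘ s) → Code c (c.p1 * a ::ₘ c.p2 * a ::ₘ s)

theorem Str.expand {c : CP M} {d : ℕ} {Φ : (Fin d → M) → M} {τ : Fin d → M} (h : Str c d Φ τ) :
    ∀ (a : M) (s : Multiset M), ms τ = a ::ₘ s →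
      ∃ d' Φ' τ', Str c d' Φ' τ' ∧ ms τ' = c.p1 * a ::ₘ c.p2 * a ::ₘ s := by
  induction h with
  | one =>
    intro a s hs
    have h1 : ms (fun _ : Fin 1 => (1 : M)) = {1} := by simp [ms]
    rw [h1] at hs
    obtain ⟨rfl, rfl⟩ := (Multiset.singleton_eq_cons_iff _).1 hs
    refine ⟨_, _, _, Str.comb Str.one Str.one, ?_⟩
    rw [ms_append]
    simp [ms]
  | @comb d e Φ τ Ψ ρ h1 h2 ih1 ih2 =>
    intro a s hs
    rw [ms_append, ms_map τ (· * c.p1), ms_map ρ (· * c.p2)] at hs
    have ha : a ∈ (ms τ).map (· * c.p1) + (ms ρ).map (· * c.p2) := by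
      rw [hs]; exact Multiset.mem_cons_self _ _
    rcases Multiset.mem_add.1 ha with ha | ha
    · obtain ⟨a', ha', rfl⟩ := Multiset.mem_map.1 ha
      obtain ⟨s', hs'⟩ := Multiset.exists_cons_of_mem ha'
      obtain ⟨d', Φ', τ', h', e'⟩ := ih1 a' s' hs'
      refine ⟨_, _, _, Str.comb h' h2, ?_⟩
      rw [ms_append, ms_map τ' (· * c.p1), ms_map ρ (· * c.p2), e']
      rw [hs', Multiset.map_cons, Multiset.cons_add, Multiset.cons_inj_right] at hs
      rw [← hs]
      simp only [Multiset.map_cons, Multiset.cons_add, mul_assoc]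
    · obtain ⟨a', ha', rfl⟩ := Multiset.mem_map.1 ha
      obtain ⟨s', hs'⟩ := Multiset.exists_cons_of_mem ha'
      obtain ⟨d', Φ', τ', h', e'⟩ := ih2 a' s' hs'
      refine ⟨_, _, _, Str.comb h1 h', ?_⟩
      rw [ms_append, ms_map τ (· * c.p1), ms_map τ' (· * c.p2), e']
      rw [hs', Multiset.map_cons, Multiset.add_cons, Multiset.cons_inj_right] at hs
      rw [← hs]
      simp only [Multiset.map_cons, Multiset.add_cons, mul_assoc]

theorem Code.str {c : CP M} {s : Multiset M} (h : Code c s) :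
    ∃ d Φ τ, Str c d Φ τ ∧ ms τ = s := by
  induction h with
  | one => exact ⟨_, _, _, Str.one, by simp [ms]⟩
  | step a s _ ih =>
    obtain ⟨d, Φ, τ, h, e⟩ := ih
    exact h.expand a s e

/-- the subgroup generated by the images of the symmetric groups -/
def HH (c : CP M) : Subgroup Mˣ :=
  Subgroup.closure {u : Mˣ | ∃ d : ℕ, 2 ≤ d ∧ ∃ (Φ : (Fin d → M) → M) (τ : Fin d → M),
    Str c d Φ τ ∧ ∃ σ : Equiv.Perm (Fin d), (u : M) = Φ fun i => τ (σ⁻¹ i)}

theorem Code.mem_HH {c : CP M} {s : Multiset M} (h : Code c s) (u : Mˣ)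
    (hu : s.map (· * (u : M)) = s) : u ∈ HH c := by
  obtain ⟨d, Φ, τ, h', rfl⟩ := h.str
  clear h
  rename' h' => h
  rw [← ms_map τ (· * (u : M))] at hu
  obtain ⟨σ, hσ⟩ := exists_perm _ _ hu
  have e : (u : M) = Φ fun i => τ (σ i) := by
    rw [← h.eta u]; exact congrArg Φ (funext hσ)
  by_cases hd : 2 ≤ d
  · exact Subgroup.subset_closure ⟨d, hd, Φ, τ, h, σ⁻¹, by rw [inv_inv]; exact e⟩
  · have : u = 1 := by
      apply Units.ext
      rw [e, Units.val_one, ← h.eta 1]
      refine congrArg Φ (funext fun i => ?_)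
      have : σ i = i := Fin.ext (by have := i.2; have := (σ i).2; omega)
      rw [this, mul_one]
    rw [this]; exact one_mem _

theorem Code.swap {c : CP M} {a b : M} {s t : Multiset M} (h : Code c (a ::ₘ s))
    (e : a ::ₘ s = b ::ₘ t) : ∃ u ∈ HH c, a * (u : M) = b ∧ s.map (· * (u : M)) = t := by
  obtain ⟨d, Φ, τ, hs, e'⟩ := h.str
  obtain ⟨i, hi⟩ := (mem_ms τ a).1 (by rw [e']; exact Multiset.mem_cons_self _ _)
  obtain ⟨j, hj⟩ := (mem_ms τ b).1 (by rw [e', e]; exact Multiset.mem_cons_self _ _)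
  set x := Φ fun k => τ (Equiv.swap i j k) with hx
  have hp : ∀ k, τ k * x = τ (Equiv.swap i j k) := fun k => hs.proj _ k
  have hxx : x * x = 1 := by
    rw [← hs.eta (x * x), ← hs.eta 1]
    refine congrArg Φ (funext fun k => ?_)
    rw [← mul_assoc, hp, hp, Equiv.swap_apply_self, mul_one]
  have hm : (a ::ₘ s).map (· * x) = a ::ₘ s := by
    rw [← e', ← ms_map τ (· * x), ← ms_perm τ (Equiv.swap i j)]
    exact congrArg ms (funext hp)
  have hab : a * x = b := by rw [← hi, hp, Equiv.swap_apply_left, hj]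
  refine ⟨⟨x, x, hxx, hxx⟩, h.mem_HH _ hm, hab, ?_⟩
  rw [Multiset.map_cons, hab, e, Multiset.cons_inj_right] at hm
  exact hm

theorem Code.key {c : CP M} {s : Multiset M} (h : Code c s) :
    ∀ t : Multiset M, Code c t → s.card = t.card → ∃ u ∈ HH c, s.map (· * (u : M)) = t := by
  induction h with
  | one =>
    intro t ht hc
    rcases ht with _ | ⟨b, t, ht⟩
    · exact ⟨1, one_mem _, by simp⟩
    · simp at hc
  | step a s hs ih =>
    intro t ht hc
    rcases ht with _ | ⟨b, t, ht⟩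
    · simp at hc
    · obtain ⟨u, hu, e⟩ := ih _ ht (by simpa using hc)
      rw [Multiset.map_cons] at e
      obtain ⟨v, hv, e1, e2⟩ := Code.swap (c := c) (by rw [e]; exact ht) e
      refine ⟨u * v, mul_mem hu hv, ?_⟩
      rw [Multiset.map_map] at e2
      simp only [Multiset.map_cons, Units.val_mul]
      rw [← e2, ← e1]
      simp only [mul_assoc, Function.comp_def]

theorem unit_mem {c : CP M} {s t : Multiset M} (hs : Code c s) (ht : Code c t) (u : Mˣ)
    (e : s.map (· * (u : M)) = t) : u ∈ HH c := by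
  obtain ⟨v, hv, e'⟩ := ht.key s hs (by rw [← e, Multiset.card_map])
  have : u * v ∈ HH c := by
    refine hs.mem_HH _ ?_
    rw [← e, Multiset.map_map] at e'
    simpa only [Units.val_mul, mul_assoc, Function.comp_def] using e'
  simpa using mul_mem this (inv_mem hv)

end Pool.Agent.H.MP_6189ff_al
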