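import Pool.Agent.H.MP_6189ff_al.A

set_option autoImplicit false

namespace Pool.Agent.H.MP_6189ff_al

variable {M : Type} [Monoid M]

def CP.p (c : CP M) (b : Bool) : M := if b then c.p2 else c.p1

def wd (c : CP M) : List Bool → M
  | [] => 1
  | b :: w => wd c w * c.p b

theorem wd_append (c : CP M) (v w : List Bool) : wd c (v ++ w) = wd c w * wd c v := by
  induction v with
  | nil => simp [wd]
  | cons b v ih => simp [wd, ih, mul_assoc]

inductive Tr : Type
  | leaf (w : List Bool) : Tr
  | node (l r : Tr) : Tr

def ev (c : CP M) : Tr → M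
  | .leaf w => wd c w
  | .node l r => c.S (ev c l, ev c r)

def labels : Tr → Multiset (List Bool)
  | .leaf w => {w}
  | .node l r => labels l + labels r

theorem wd_mul_ev (c : CP M) (t : Tr) : ∀ w, ∃ t', wd c w * ev c t = ev c t' := by
  induction t with
  | leaf v => intro w; exact ⟨.leaf (v ++ w), by simp [ev, wd_append]⟩
  | node l r ihl ihr =>
    intro w
    rcases w with _ | ⟨b, w⟩
    · exact ⟨.node l r, by simp [wd]⟩
    · cases b
      · obtain ⟨t', e⟩ := ihl w
        exact ⟨t', by rw [← e]; simp [wd, ev, CP.p, mul_assoc, c.h1]⟩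
      · obtain ⟨t', e⟩ := ihr w
        exact ⟨t', by rw [← e]; simp [wd, ev, CP.p, mul_assoc, c.h2]⟩

theorem ev_mul_ev (c : CP M) (s t : Tr) : ∃ t', ev c s * ev c t = ev c t' := by
  induction s with
  | leaf w => exact wd_mul_ev c t w
  | node l r ihl ihr =>
    obtain ⟨a, ea⟩ := ihl
    obtain ⟨b, eb⟩ := ihr
    exact ⟨.node a b, by rw [ev, ev, c.S_mul, ea, eb]⟩

def sub (c : CP M) : Submonoid M where
  carrier := Set.range (ev c)
  one_mem' := ⟨.leaf [], rfl⟩
  mul_mem' := by
    rintro _ _ ⟨s, rfl⟩ ⟨t, rfl⟩
    obtain ⟨t', e⟩ := ev_mul_ev c s t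
    exact ⟨t', e.symm⟩

def subCP (c : CP M) : CP (sub c) where
  S x := ⟨c.S (x.1.1, x.2.1), by
    obtain ⟨s, hs⟩ := x.1.2
    obtain ⟨t, ht⟩ := x.2.2
    exact ⟨.node s t, by rw [ev, hs, ht]⟩⟩
  p1 := ⟨c.p1, .leaf [false], by simp [ev, wd, CP.p]⟩
  p2 := ⟨c.p2, .leaf [true], by simp [ev, wd, CP.p]⟩
  bij := by
    constructor
    · rintro ⟨a, b⟩ ⟨a', b'⟩ h
      have := c.bij.1 (congrArg Subtype.val h)
      simp only [Prod.mk.injEq] at this
      exact Prod.ext (Subtype.ext this.1) (Subtype.ext this.2)
    · intro x
      refine ⟨((⟨c.p1, .leaf [false], by simp [ev, wd, CP.p]⟩ : sub c) * x,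
        (⟨c.p2, .leaf [true], by simp [ev, wd, CP.p]⟩ : sub c) * x), Subtype.ext ?_⟩
      exact c.eta x.1
  h1 a b := Subtype.ext (c.h1 _ _)
  h2 a b := Subtype.ext (c.h2 _ _)

theorem ev_surj {c : CP M} (hc : IsInitial c) (x : M) : ∃ t, ev c t = x := by
  obtain ⟨f, hf, -⟩ := hc (sub c) (subCP c)
  obtain ⟨g, -, hg⟩ := hc M c
  have h1 : (sub c).subtype.comp f = g := by
    refine hg _ ⟨?_, ?_, fun a b => ?_⟩
    · simp [hf.1, subCP]
    · simp [hf.2.1, subCP]
    · simp [hf.2.2, subCP]
  have h2 : MonoidHom.id M = g := hg _ ⟨rfl, rfl, fun _ _ => rfl⟩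
  have : ((sub c).subtype.comp f) x = x := by rw [h1, ← h2]; rfl
  obtain ⟨t, ht⟩ := (f x).2
  exact ⟨t, ht.trans this⟩

/-- leaves of the shape of a tree -/
def paths (c : CP M) : Tr → Multiset M
  | .leaf _ => {1}
  | .node l r => (paths c l).map (· * c.p1) + (paths c r).map (· * c.p2)

theorem Code.graft {c : CP M} {s : Multiset M} (h : Code c s) (a : M) (t : Multiset M)
    (ht : Code c (a ::ₘ t)) : Code c (s.map (· * a) + t) := by
  induction h with
  | one => simpa using ht
  | step b s _ ih =>
    rw [Multiset.map_cons, Multiset.cons_add] at ih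
    have := Code.step _ _ ih
    simpa only [Multiset.map_cons, Multiset.cons_add, mul_assoc] using this

theorem code_paths (c : CP M) (t : Tr) : Code c (paths c t) := by
  induction t with
  | leaf w => exact Code.one
  | node l r ihl ihr =>
    have h0 : Code c (c.p2 ::ₘ {c.p1}) := by
      have := Code.step (c := c) 1 0 Code.one
      rw [mul_one, mul_one, Multiset.cons_swap] at this
      exact this
    have h1 := ihr.graft _ _ h0
    rw [add_comm, Multiset.singleton_add] at h1
    exact ihl.graft _ _ h1

theorem paths_mul (c : CP M) (t : Tr) :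
    (paths c t).map (· * ev c t) = (labels t).map (wd c) := by
  induction t with
  | leaf w => simp [paths, labels, ev]
  | node l r ihl ihr =>
    simp only [paths, labels, ev, Multiset.map_add, Multiset.map_map, Function.comp_def,
      mul_assoc, c.h1, c.h2]
    rw [ihl, ihr]

/-! Cantor space -/

abbrev X := Stream' Bool

def app : List Bool → X → X
  | [], x => x
  | b :: w, x => Stream'.cons b (app w x)

theorem app_append (v w : List Bool) (x : X) : app (v ++ w) x = app v (app w x) := by
  induction v with
  | nil => rfl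
  | cons b v ih => simp [app, ih]

def pre (w : List Bool) (y : X) : Prop := ∃ z, app w z = y

theorem app_inj (w : List Bool) : Function.Injective (app w) := by
  induction w with
  | nil => exact fun _ _ h => h
  | cons b w ih => exact fun _ _ h => ih (Stream'.cons_injective2 h).2

theorem pre_cmp : ∀ (v w : List Bool) (y : X), pre v y → pre w y → v.length ≤ w.length →
    ∃ u, v ++ u = w
  | [], w, _, _, _, _ => ⟨w, rfl⟩
  | _ :: _, [], _, _, _, h => by simp at h
  | b :: v, b' :: w, _, ⟨z, rfl⟩, ⟨z', e⟩, h => by
    obtain ⟨rfl, e'⟩ := Stream'.cons_injective2 e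
    obtain ⟨u, rfl⟩ := pre_cmp v w _ ⟨z, rfl⟩ ⟨z', e'⟩ (by simpa using h)
    exact ⟨u, rfl⟩

def cantor : CP (Function.End X)ᵐᵒᵖ where
  S x := MulOpposite.op fun y => if y.head then x.2.unop y.tail else x.1.unop y.tail
  p1 := MulOpposite.op (Stream'.cons false)
  p2 := MulOpposite.op (Stream'.cons true)
  bij := by
    constructor
    · rintro ⟨a, b⟩ ⟨a', b'⟩ h
      have h' := MulOpposite.op_injective h
      refine Prod.ext (MulOpposite.unop_injective (funext fun y => ?_))
        (MulOpposite.unop_injective (funext fun y => ?_))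
      · simpa using congrFun h' (Stream'.cons false y)
      · simpa using congrFun h' (Stream'.cons true y)
    · intro f
      refine ⟨(MulOpposite.op fun y => f.unop (Stream'.cons false y),
        MulOpposite.op fun y => f.unop (Stream'.cons true y)),
        MulOpposite.unop_injective (funext fun y => ?_)⟩
      have := Stream'.eta y
      cases h : y.head
      · rw [h] at this; simp [h, this]
      · rw [h] at this; simp [h, this]
  h1 a b := MulOpposite.unop_injective (funext fun y => by simp [Function.End.mul_def])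
  h2 a b := MulOpposite.unop_injective (funext fun y => by simp [Function.End.mul_def])

def act : Tr → X → X
  | .leaf w => app w
  | .node l r => fun y => if y.head then act r y.tail else act l y.tail

theorem wd_cantor (w : List Bool) : wd cantor w = MulOpposite.op (app w) := by
  induction w with
  | nil => rfl
  | cons b w ih => rw [wd, ih]; cases b <;> rfl

theorem ev_cantor (t : Tr) : ev cantor t = MulOpposite.op (act t) := by
  induction t with
  | leaf w => exact wd_cantor w
  | node l r ihl ihr => rw [ev, ihl, ihr]; rfl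

theorem hom_ev {N : Type} [Monoid N] {c : CP M} {e : CP N} {f : M →* N} (hf : IsHom c e f)
    (t : Tr) : f (ev c t) = ev e t := by
  induction t with
  | leaf w =>
    induction w with
    | nil => exact f.map_one
    | cons b w ih =>
      simp only [ev, wd, map_mul] at ih ⊢
      rw [ih]
      cases b <;> simp [CP.p, hf.1, hf.2.1]
  | node l r ihl ihr => rw [ev, ev, hf.2.2, ihl, ihr]

open Classical in
noncomputable def cnt (W : Multiset (List Bool)) (y : X) : ℕ := W.countP fun w => pre w y

theorem cnt_add (V W : Multiset (List Bool)) (y : X) : cnt (V + W) y = cnt V y + cnt W y := by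
  simp [cnt]

open Classical in
theorem cnt_cons (w : List Bool) (W : Multiset (List Bool)) (y : X) :
    cnt (w ::ₘ W) y = cnt W y + if pre w y then 1 else 0 := by
  simp [cnt, Multiset.countP_cons]

theorem cnt_pos (W : Multiset (List Bool)) (y : X) : 0 < cnt W y ↔ ∃ w ∈ W, pre w y := by
  simp [cnt, Multiset.countP_pos]

theorem cnt_labels (t : Tr) (y : X) : 0 < cnt (labels t) y ↔ ∃ x, act t x = y := by
  induction t with
  | leaf w => simp [cnt_pos, labels, pre, act]
  | node l r ihl ihr =>
    rw [labels, cnt_add, Nat.add_pos_iff_pos_or_pos, ihl, ihr]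
    constructor
    · rintro (⟨x, rfl⟩ | ⟨x, rfl⟩)
      · exact ⟨Stream'.cons false x, by simp [act]⟩
      · exact ⟨Stream'.cons true x, by simp [act]⟩
    · rintro ⟨x, rfl⟩
      cases h : x.head
      · exact Or.inl ⟨x.tail, by simp [act, h]⟩
      · exact Or.inr ⟨x.tail, by simp [act, h]⟩

theorem cnt_le (t : Tr) (h : Function.Injective (act t)) (y : X) : cnt (labels t) y ≤ 1 := by
  induction t with
  | leaf w =>
    have := cnt_cons w 0 y
    rw [labels, ← Multiset.cons_zero, this]
    split_ifs <;> simp [cnt]
  | node l r ihl ihr =>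
    have hl : Function.Injective (act l) := fun a b e => by
      have : act (.node l r) (Stream'.cons false a) = act (.node l r) (Stream'.cons false b) := by
        simpa [act] using e
      exact (Stream'.cons_injective2 (h this)).2
    have hr : Function.Injective (act r) := fun a b e => by
      have : act (.node l r) (Stream'.cons true a) = act (.node l r) (Stream'.cons true b) := by
        simpa [act] using e
      exact (Stream'.cons_injective2 (h this)).2
    have h1 := ihl hl
    have h2 := ihr hr
    rw [labels, cnt_add]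
    by_contra hc
    obtain ⟨a, ha⟩ := (cnt_labels l y).1 (by omega)
    obtain ⟨b, hb⟩ := (cnt_labels r y).1 (by omega)
    have : act (.node l r) (Stream'.cons false a) = act (.node l r) (Stream'.cons true b) := by
      simp [act, ha, hb]
    exact Bool.false_ne_true (Stream'.cons_injective2 (h this)).1

theorem pre_snoc (v : List Bool) (b : Bool) (y : X) :
    pre (v ++ [b]) y ↔ ∃ z, app v (Stream'.cons b z) = y := by
  simp [pre, app_append, app]

theorem code_of_cnt (c : CP M) : ∀ (n : ℕ) (W : Multiset (List Bool)), W.card = n →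
    (∀ y, cnt W y = 1) → Code c (W.map (wd c)) := by
  intro n
  induction n using Nat.strong_induction_on with
  | _ n ih =>
  intro W hn hW
  classical
  have hne : W.toFinset.Nonempty := by
    obtain ⟨w, hw, -⟩ := (cnt_pos W (Stream'.const false)).1 (by rw [hW]; exact one_pos)
    exact ⟨w, Multiset.mem_toFinset.2 hw⟩
  obtain ⟨w, hw, hmax⟩ := W.toFinset.exists_max_image List.length hne
  rw [Multiset.mem_toFinset] at hw
  obtain ⟨W1, rfl⟩ := Multiset.exists_cons_of_mem hw
  have hz : ∀ y, pre w y → cnt W1 y = 0 := fun y hy => by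
    have := hW y
    rw [cnt_cons, if_pos hy] at this
    omega
  rcases List.eq_nil_or_concat' w with rfl | ⟨v, b, rfl⟩
  · have : W1 = 0 := by
      by_contra h0
      obtain ⟨w', hw'⟩ := Multiset.exists_mem_of_ne_zero h0
      have h1 := hz (app w' (Stream'.const false)) ⟨_, rfl⟩
      have h2 := (cnt_pos W1 (app w' (Stream'.const false))).2 ⟨w', hw', _, rfl⟩
      omega
    subst this
    simpa [wd] using Code.one
  · have hy : ∀ z z', app v (Stream'.cons (!b) z) ≠ app v (Stream'.cons b z') := fun z z' e => by
      have := (Stream'.cons_injective2 (app_inj v e)).1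
      simp at this
    have h1 : 0 < cnt W1 (app v (Stream'.cons (!b) (Stream'.const false))) := by
      have := hW (app v (Stream'.cons (!b) (Stream'.const false)))
      rw [cnt_cons, if_neg] at this
      · omega
      · rw [pre_snoc]; rintro ⟨z, e⟩; exact hy _ _ e.symm
    obtain ⟨w', hw', hp⟩ := (cnt_pos _ _).1 h1
    have hl : w'.length ≤ v.length + 1 := by
      simpa using hmax w' (Multiset.mem_toFinset.2 (Multiset.mem_cons_of_mem hw'))
    have e : w' = v ++ [!b] := by
      rcases Nat.lt_or_ge v.length w'.length with hlt | hle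
      · obtain ⟨u, hu⟩ := pre_cmp w' (v ++ [!b]) _ hp ((pre_snoc _ _ _).2 ⟨_, rfl⟩)
          (by simpa using hl)
        have := congrArg List.length hu
        simp only [List.length_append, List.length_singleton] at this
        have hu0 : u = [] := List.length_eq_zero_iff.1 (by omega)
        rw [← hu, hu0, List.append_nil]
      · exfalso
        obtain ⟨u, rfl⟩ := pre_cmp w' v _ hp ⟨_, rfl⟩ hle
        have h2 := hz (app (w' ++ u ++ [b]) (Stream'.const false)) ⟨_, rfl⟩
        have h3 := (cnt_pos W1 (app (w' ++ u ++ [b]) (Stream'.const false))).2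
          ⟨w', hw', app (u ++ [b]) (Stream'.const false), by rw [List.append_assoc, ← app_append]⟩
        omega
    subst e
    obtain ⟨W0, rfl⟩ := Multiset.exists_cons_of_mem hw'
    have hc := ih (v ::ₘ W0).card (by rw [← hn]; simp) (v ::ₘ W0) rfl fun y => by
      have := hW y
      rw [cnt_cons, cnt_cons] at this
      rw [cnt_cons]
      by_cases hv : pre v y
      · obtain ⟨z, rfl⟩ := hv
        rw [if_pos ⟨z, rfl⟩]
        have ez := Stream'.eta z
        by_cases hb : z.head = b
        · rw [hb] at ez
          rw [if_pos ((pre_snoc v b _).2 ⟨_, by rw [ez]⟩)] at this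
          omega
        · have hb' : z.head = !b := by cases b <;> simpa using hb
          rw [hb'] at ez
          rw [if_pos ((pre_snoc v (!b) _).2 ⟨_, by rw [ez]⟩)] at this
          omega
      · rw [if_neg hv]
        rw [if_neg, if_neg] at this
        · exact this
        · rw [pre_snoc]; rintro ⟨z', e⟩; exact hv ⟨_, e⟩
        · rw [pre_snoc]; rintro ⟨z', e⟩; exact hv ⟨_, e⟩
    rw [Multiset.map_cons] at hc
    have h3 := Code.step _ _ hc
    simp only [Multiset.map_cons, wd_append, wd, one_mul]
    cases b
    · simpa [CP.p] using h3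
    · rw [Multiset.cons_swap]; simpa [CP.p] using h3

theorem main {c : CP M} (hc : IsInitial c) : HH c = ⊤ := by
  rw [eq_top_iff]
  intro u _
  obtain ⟨t, ht⟩ := ev_surj hc u
  obtain ⟨f, hf, -⟩ := hc _ cantor
  have e1 : f u = MulOpposite.op (act t) := by rw [← ht, hom_ev hf, ev_cantor]
  have a1 : f u * f ↑u⁻¹ = 1 := by rw [← map_mul, u.mul_inv, map_one]
  have a2 : f ↑u⁻¹ * f u = 1 := by rw [← map_mul, u.inv_mul, map_one]
  rw [e1] at a1 a2
  have b1 : ∀ x, (f ↑u⁻¹).unop (act t x) = x := fun x => congrFun (congrArg MulOpposite.unop a1) x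
  have b2 : ∀ x, act t ((f ↑u⁻¹).unop x) = x := fun x => congrFun (congrArg MulOpposite.unop a2) x
  have hinj : Function.Injective (act t) := Function.LeftInverse.injective b1
  have hcode := code_of_cnt c _ (labels t) rfl fun y => by
    have h1 := cnt_le t hinj y
    have h2 := (cnt_labels t y).2 ⟨_, b2 y⟩
    omega
  exact unit_mem (code_paths c t) hcode u (by rw [← ht, paths_mul])

/-! existence of the initial object -/

inductive Tm : Type
  | one : Tm
  | p1 : Tm
  | p2 : Tm
  | mul (a b : Tm) : Tm
  | pr (a b : Tm) : Tm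

def tev {N : Type} [Monoid N] (e : CP N) : Tm → N
  | .one => 1
  | .p1 => e.p1
  | .p2 => e.p2
  | .mul a b => tev e a * tev e b
  | .pr a b => e.S (tev e a, tev e b)

def tmS : Setoid Tm where
  r a b := ∀ (N : Type) [Monoid N] (e : CP N), tev e a = tev e b
  iseqv := ⟨fun _ _ _ _ => rfl, fun h N _ e => (h N e).symm,
    fun h h' N _ e => (h N e).trans (h' N e)⟩

def UU : Type := Quotient tmS

def UU.mk (a : Tm) : UU := Quotient.mk tmS a

theorem UU.ind {P : UU → Prop} (h : ∀ a, P (UU.mk a)) (x : UU) : P x := Quotient.ind h x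

theorem UU.sound {a b : Tm} (h : ∀ (N : Type) [Monoid N] (e : CP N), tev e a = tev e b) :
    UU.mk a = UU.mk b := Quotient.sound h

instance : Monoid UU where
  mul := Quotient.map₂ Tm.mul fun _ _ h _ _ h' N _ e => by rw [tev, tev, h N e, h' N e]
  one := UU.mk .one
  mul_assoc a b c := by
    induction a using UU.ind; induction b using UU.ind; induction c using UU.ind
    exact UU.sound fun N _ e => mul_assoc _ _ _
  one_mul a := by
    induction a using UU.ind
    exact UU.sound fun N _ e => one_mul _
  mul_one a := by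
    induction a using UU.ind
    exact UU.sound fun N _ e => mul_one _

def UU.pr (a b : UU) : UU :=
  Quotient.map₂ Tm.pr (fun _ _ h _ _ h' N _ e => by rw [tev, tev, h N e, h' N e]) a b

theorem UU.h1 (a b : UU) : UU.mk .p1 * UU.pr a b = a := by
  induction a using UU.ind; induction b using UU.ind
  exact UU.sound fun N _ e => e.h1 _ _

theorem UU.h2 (a b : UU) : UU.mk .p2 * UU.pr a b = b := by
  induction a using UU.ind; induction b using UU.ind
  exact UU.sound fun N _ e => e.h2 _ _

def UU.cp : CP UU where
  S x := UU.pr x.1 x.2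
  p1 := UU.mk .p1
  p2 := UU.mk .p2
  bij := by
    constructor
    · rintro ⟨a, b⟩ ⟨a', b'⟩ h
      have h' : UU.pr a b = UU.pr a' b' := h
      exact Prod.ext (by rw [← UU.h1 a b, h', UU.h1]) (by rw [← UU.h2 a b, h', UU.h2])
    · intro x
      induction x using UU.ind with
      | _ a => exact ⟨(UU.mk (.mul .p1 a), UU.mk (.mul .p2 a)), UU.sound fun N _ e => e.eta _⟩
  h1 := UU.h1
  h2 := UU.h2

theorem UU.initial : IsInitial UU.cp := by
  intro N _ e
  let f : UU →* N :=
    { toFun := Quotient.lift (tev e) fun _ _ h => h N e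
      map_one' := rfl
      map_mul' := fun a b => by
        induction a using UU.ind; induction b using UU.ind; rfl }
  refine ⟨f, ⟨rfl, rfl, fun a b => ?_⟩, fun g hg => MonoidHom.ext fun x => ?_⟩
  · induction a using UU.ind; induction b using UU.ind; rfl
  · induction x using UU.ind with
    | _ a =>
      show g (UU.mk a) = tev e a
      induction a with
      | one => exact g.map_one
      | p1 => exact hg.1
      | p2 => exact hg.2.1
      | mul a b iha ihb => rw [tev, ← iha, ← ihb]; exact g.map_mul (UU.mk a) (UU.mk b)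
      | pr a b iha ihb => rw [tev, ← iha, ← ihb]; exact hg.2.2 (UU.mk a) (UU.mk b)

end Pool.Agent.H.MP_6189ff_al
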