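import Mathlib

set_option autoImplicit false

namespace Pool.Agent.H.MP_6189ff_al

/-- a 2-CP structure on a monoid -/
structure CP (M : Type) [Monoid M] where
  S : M × M → M
  p1 : M
  p2 : M
  bij : Function.Bijective S
  h1 : ∀ a b, p1 * S (a, b) = a
  h2 : ∀ a b, p2 * S (a, b) = b

/-- homomorphisms of CP monoids -/
def IsHom {M N : Type} [Monoid M] [Monoid N] (c : CP M) (e : CP N) (f : M →* N) : Prop :=
  f c.p1 = e.p1 ∧ f c.p2 = e.p2 ∧ ∀ a b, f (c.S (a, b)) = e.S (f a, f b)

/-- initial object of the category of CP monoids -/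
def IsInitial {M : Type} [Monoid M] (c : CP M) : Prop :=
  ∀ (N : Type) [Monoid N] (e : CP N), ∃! f : M →* N, IsHom c e f

/-- the d-CP structures obtained from (id, 1) by repeated combination with outer structure
(S, p1, p2) -/
inductive Str {M : Type} [Monoid M] (c : CP M) : (d : ℕ) → ((Fin d → M) → M) → (Fin d → M) → Prop
  | one : Str c 1 (fun m => m 0) fun _ => 1
  | comb {d e : ℕ} {Φ : (Fin d → M) → M} {τ : Fin d → M} {Ψ : (Fin e → M) → M} {ρ : Fin e → M} :
      Str c d Φ τ → Str c e Ψ ρ →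
      Str c (d + e) (fun m => c.S (Φ fun i => m (Fin.castAdd e i), Ψ fun j => m (Fin.natAdd d j)))
        (Fin.append (fun i => τ i * c.p1) fun j => ρ j * c.p2)

end Pool.Agent.H.MP_6189ff_al
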